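import Mathlib
import Pool.Agent.X78.Contact
import Pool.Agent.X78.ContactTri

namespace Pool.Agent.Results.MP_65bbe4_ag.AllEquivalent

open MvPowerSeries Pool.Agent.X78.Contact

noncomputable section

/-- The pair `(x² + y⁴, y⁵ + l x y³ + a x y^(p+3) + e x y^(p+4) + b x y^(2p+3))` in `F[[x,y]]`,
with `x = X 0` and `y = X 1`. -/
def pairE {F : Type*} [Field F] (p : ℕ) (l a e b : F) : Fin 2 → MvPowerSeries (Fin 2) F :=
  ![X 0 ^ 2 + X 1 ^ 4, X 1 ^ 5 + C l * X 0 * X 1 ^ 3 + C a * X 0 * X 1 ^ (p + 3) +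
    C e * X 0 * X 1 ^ (p + 4) + C b * X 0 * X 1 ^ (2 * p + 3)]

/-- The pair `f_{a,b} = (x² + y⁴, y⁵ + l x y³ + a x y^(p+3) + x y^(p+4) + b x y^(2p+3))` in
`F[[x,y]]`, with `x = X 0` and `y = X 1`. -/
def pair {F : Type*} [Field F] (p : ℕ) (l a b : F) : Fin 2 → MvPowerSeries (Fin 2) F :=
  ![X 0 ^ 2 + X 1 ^ 4, X 1 ^ 5 + C l * X 0 * X 1 ^ 3 + C a * X 0 * X 1 ^ (p + 3) +
    X 0 * X 1 ^ (p + 4) + C b * X 0 * X 1 ^ (2 * p + 3)]

/-- `P` holds for general points of `F⁴`: it holds on some nonempty Zariski-open subset, that is,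
there is a set `S` of polynomials, not all vanishing identically as functions on `F⁴`, such that
`P` holds wherever some member of `S` does not vanish. -/
def General {F : Type*} [Field F] (P : (Fin 4 → F) → Prop) : Prop :=
  ∃ S : Set (MvPolynomial (Fin 4) F), (∃ v, ∃ q ∈ S, MvPolynomial.eval v q ≠ 0) ∧
    ∀ v, (∃ q ∈ S, MvPolynomial.eval v q ≠ 0) → P v

theorem pair_eq {F : Type*} [Field F] (p : ℕ) (l a b : F) : pair p l a b = pairE p l a 1 b := by
  simp [pair, pairE]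

theorem scale {F : Type*} [Field F] (p : ℕ) (l a e b : F) {s : F} (hs : s ≠ 0) :
    ContactEquiv (pairE p l a e b)
      (pairE p l (a * s ^ p) (e * s ^ (p + 1)) (b * s ^ (2 * p))) := by
  obtain ⟨φ, h0, h1⟩ := exists_scale hs
  have hC : ∀ e : F, φ (C e) = C e := fun e => algHom_C (φ : _ →ₐ[F] _) e
  refine contact_of_MI φ (a := C (s ^ 4)) (b := 0) (c := 0) (d := C (s ^ 5)) (h := 0) (k := 0)
    ?_ ?_ ⟨0, 0, by simp, by simp, by simp⟩ ⟨0, 0, by simp, by simp, by simp⟩ ?_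
  · simp only [pairE, Matrix.cons_val_zero, Matrix.cons_val_one, map_add, map_mul, map_pow, h0, h1]
    ring
  · simp only [pairE, Matrix.cons_val_zero, Matrix.cons_val_one, map_add, map_mul, map_pow, h0, h1,
      hC]
    ring
  · simp [hs]

theorem stepB {F : Type*} [Field F] (h2 : (2 : F) ≠ 0) (k : ℕ) (l : F) (hl : l ^ 2 = -1)
    {a : F} (ha : a ≠ 0) (e b e' b' : F) :
    ContactEquiv (pairE (k + 2) l a e b) (pairE (k + 2) l a e' b') := by
  have hl0 : l ≠ 0 := by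
    rintro rfl
    norm_num at hl
  have h4 : (4 : F) ≠ 0 := by
    have : (4 : F) = 2 * 2 := by norm_num
    rw [this]; exact mul_ne_zero h2 h2
  obtain ⟨τ₀, hτ₀⟩ : ∃ τ : F, 4 * l * τ * a = e' - e :=
    ⟨(e' - e) / (4 * l * a), by field_simp⟩
  set x : MvPowerSeries (Fin 2) F := X 0 with hx
  set y : MvPowerSeries (Fin 2) F := X 1 with hy
  have hcx : constantCoeff x = 0 := by simp [hx]
  have hcy : constantCoeff y = 0 := by simp [hy]
  set L : MvPowerSeries (Fin 2) F := C l with hL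
  set A : MvPowerSeries (Fin 2) F := C a with hA
  set E : MvPowerSeries (Fin 2) F := C e with hE
  set B : MvPowerSeries (Fin 2) F := C b with hB
  set E' : MvPowerSeries (Fin 2) F := C e' with hE'
  set B' : MvPowerSeries (Fin 2) F := C b' with hB'
  set τ : MvPowerSeries (Fin 2) F := C τ₀ with hτ
  have hLL : L ^ 2 = -1 := by rw [hL, ← map_pow, hl, map_neg, map_one]
  have hEE : 4 * L * τ * A = E' - E := by
    rw [hL, hτ, hA, hE', hE, ← map_sub, ← hτ₀, map_mul, map_mul, map_mul, map_ofNat]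
  set z : MvPowerSeries (Fin 2) F := y ^ k with hz
  set ρ : MvPowerSeries (Fin 2) F := 2 * L * τ with hρ
  set w : MvPowerSeries (Fin 2) F := A + (E' - ρ * A) * y with hw
  set q : MvPowerSeries (Fin 2) F := A + E * y + B * (y ^ 2 * z) with hq
  set q' : MvPowerSeries (Fin 2) F := A + E' * y + B' * (y ^ 2 * z) with hq'
  set M : MvPowerSeries (Fin 2) F := x - L * y ^ 2 with hM
  set N : MvPowerSeries (Fin 2) F := x + L * y ^ 2 with hN
  set G1 : MvPowerSeries (Fin 2) F := x ^ 2 + y ^ 4 with hG1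
  set G2 : MvPowerSeries (Fin 2) F := y ^ 5 + L * x * y ^ 3 + x * y ^ 5 * z * q' with hG2
  have hcq : constantCoeff q' ≠ 0 := by simp [hq', hcy, hA, ha]
  have hu1 : constantCoeff (2 - L * (y ^ 2 * z) * q') ≠ 0 := by
    simp only [map_sub, map_mul, map_pow, hcy, map_ofNat]
    simpa using h2
  have hu3 : constantCoeff (2 : MvPowerSeries (Fin 2) F) ≠ 0 := by
    rw [map_ofNat]; exact h2
  have hu2 : constantCoeff (L * q') ≠ 0 := by
    rw [map_mul]; exact mul_ne_zero (by simp [hL, hl0]) hcq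
  have K1 : MI G1 G2 (y ^ 5 * M) := by
    refine MI.cancel hu1 ⟨-(L * y ^ 3 + y ^ 5 * z * q'), M, by simp [hcy], by simp [hM, hcx, hcy], ?_⟩
    rw [hG1, hG2, hM]
    linear_combination (x * y ^ 5 + y ^ 9 * z * q') * hLL
  have K2 : MI G1 G2 (y ^ 7 * z * N) := by
    refine MI.cancel hu2 ⟨-(L * y ^ 3 + y ^ 5 * z * q'), N, by simp [hcy], by simp [hN, hcx, hcy], ?_⟩
    rw [hG1, hG2, hN]
    linear_combination (q' * y ^ 9 * z - x * y ^ 5) * hLL
  have K3 : MI G1 G2 (x * y ^ 7 * z) := by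
    refine MI.cancel hu3 ?_
    have e3 : 2 * (x * y ^ 7 * z) = (y ^ 2 * z) * (y ^ 5 * M) + y ^ 7 * z * N := by
      rw [hM, hN]; ring
    rw [e3]
    exact (K1.mul _).add K2
  have hcu : constantCoeff (1 - ρ * y + τ * y ^ 3 * z * w) ≠ 0 := by
    simp [hcy]
  obtain ⟨φ, h0, h1⟩ := exists_tri (F := F) (u := 1 - ρ * y + τ * y ^ 3 * z * w)
    (v := L * y ^ 2 * (ρ * y + τ * y ^ 3 * z * w)) hcu (by simp [hcy]) (by
      intro φ hφ
      rw [← hy] at hφ
      have h2' : φ (2 : MvPowerSeries (Fin 2) F) = 2 := map_ofNat φ 2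
      constructor
      · simp only [hw, hρ, hz, map_sub, map_add, map_mul, map_pow, map_one, hφ, hL, hτ, hA, hE',
          algHom_C, h2']
      · simp only [hw, hρ, hz, map_sub, map_add, map_mul, map_pow, map_one, hφ, hL, hτ, hA, hE',
          algHom_C, h2'])
  rw [← hx] at h0
  rw [← hy] at h1
  have hC : ∀ e : F, φ (C e) = C e := fun e => algHom_C (φ : _ →ₐ[F] _) e
  have z1 : y ^ (k + 2 + 3) = y ^ 5 * z := by rw [hz]; ring
  have z2 : y ^ (k + 2 + 4) = y ^ 6 * z := by rw [hz]; ring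
  have z3 : y ^ (2 * (k + 2) + 3) = y ^ 7 * z ^ 2 := by rw [hz]; ring
  have g0 : pairE (k + 2) l a e' b' 0 = G1 := rfl
  have g1 : pairE (k + 2) l a e' b' 1 = G2 := by
    simp only [pairE, Matrix.cons_val_one, Matrix.cons_val_zero]
    rw [← hx, ← hy, ← hL, ← hA, ← hE', ← hB', z1, z2, z3, hG2, hq']
    ring
  refine contact_of_MI φ (a := 1) (b := 2 * ρ * (1 - ρ * y)) (c := 0) (d := 1)
    (h := (((-2 * ρ * y + 2 * τ * y ^ 3 * z * w + ρ ^ 2 * y ^ 2 - 2 * ρ * τ * y ^ 4 * z * w +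
      τ ^ 2 * y ^ 6 * z ^ 2 * w ^ 2) * G1 + 0 * G2) +
      ((-ρ * (1 - ρ * y) * z * q') * (y ^ 5 * M) +
      (ρ * (ρ * E' - (1 - ρ * y) * B' * z) + y * z * 2 * L * τ ^ 2 * w ^ 2) * (y ^ 7 * z * N))))
    (k := ((0 * G1 + (-(ρ * y)) * G2) +
      ((ρ * (2 * E' - ρ * A + B' * y * z) + (B - B') * z) * (x * y ^ 7 * z) +
      ((-L * τ * y * z * w - ρ * y * z * q) * (y ^ 5 * M) +
      (τ * y * z * w * q) * (y ^ 7 * z * N)))))
    ?_ ?_ ?_ ?_ ?_
  · rw [g0, g1]
    have : φ (pairE (k + 2) l a e b 0) =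
        (x * (1 - ρ * y + τ * y ^ 3 * z * w) + L * y ^ 2 * (ρ * y + τ * y ^ 3 * z * w)) ^ 2 +
        y ^ 4 := by
      simp only [pairE, Matrix.cons_val_zero, map_add, map_pow]
      rw [← hx, ← hy, h0, h1]
    rw [this, hG1, hG2, hM, hN, hq', hw, hρ]
    linear_combination (4 * A * E' * L * y ^ 12 * z ^ 2 * τ ^ 3 - 2 * A * E' * y ^ 11 * z ^ 2 * τ ^ 2
      + 8 * A * L * y ^ 8 * z * τ ^ 2 - 8 * A * L ^ 2 * y ^ 9 * z * τ ^ 3 - 2 * A * y ^ 7 * z * τ
      + 4 * A ^ 2 * L * y ^ 11 * z ^ 2 * τ ^ 3 - 4 * A ^ 2 * L ^ 2 * y ^ 12 * z ^ 2 * τ ^ 4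
      - A ^ 2 * y ^ 10 * z ^ 2 * τ ^ 2 + 4 * E' * L * y ^ 9 * z * τ ^ 2 - 2 * E' * y ^ 8 * z * τ
      - E' ^ 2 * y ^ 12 * z ^ 2 * τ ^ 2 + 4 * L ^ 2 * y ^ 6 * τ ^ 2) * hLL
  · rw [g0, g1]
    have : φ (pairE (k + 2) l a e b 1) =
        y ^ 5 + L * (x * (1 - ρ * y + τ * y ^ 3 * z * w) +
          L * y ^ 2 * (ρ * y + τ * y ^ 3 * z * w)) * y ^ 3 +
        (x * (1 - ρ * y + τ * y ^ 3 * z * w) +
          L * y ^ 2 * (ρ * y + τ * y ^ 3 * z * w)) * (y ^ 5 * z) * q := by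
      simp only [pairE, Matrix.cons_val_one, Matrix.cons_val_zero, map_add, map_mul, map_pow, hC]
      rw [← hx, ← hy, h0, h1, z1, z2, z3, hq, ← hL, ← hA, ← hE, ← hB]
      ring
    rw [this, hG1, hG2, hM, hN, hq, hq', hw, hρ]
    linear_combination (2 * L * y ^ 6 * τ) * hLL + (x * y ^ 6 * z) * hEE
  · rw [g0, g1]
    refine MI.add ⟨_, _, by simp [hcy], by simp, rfl⟩ ((K1.mul _).add (K2.mul _))
  · rw [g0, g1]
    refine MI.add ⟨_, _, by simp, by simp [hcy], rfl⟩ ((K3.mul _).add ((K1.mul _).add (K2.mul _)))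
  · simp

theorem char_two {F : Type*} [Field F] [CharP F 2] {a c : F} (ha : a ≠ 0) (hc : c ≠ 0) (b d : F) :
    ContactEquiv (pair 2 1 a b) (pair 2 1 c d) := by
  set x : MvPowerSeries (Fin 2) F := X 0 with hx
  set y : MvPowerSeries (Fin 2) F := X 1 with hy
  have hcx : constantCoeff x = 0 := by simp [hx]
  have hcy : constantCoeff y = 0 := by simp [hy]
  have h2 : (2 : MvPowerSeries (Fin 2) F) = 0 := by
    have h : (C (2 : F) : MvPowerSeries (Fin 2) F) = 0 := by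
      rw [CharTwo.two_eq_zero (R := F), map_zero]
    rwa [map_ofNat] at h
  set q : MvPowerSeries (Fin 2) F := C a + y + C b * y ^ 2 with hq
  set q' : MvPowerSeries (Fin 2) F := C c + y + C d * y ^ 2 with hq'
  have hcq : constantCoeff q ≠ 0 := by simp [hq, hcy, ha]
  have hcq' : constantCoeff q' ≠ 0 := by simp [hq', hcy, hc]
  have hcD : constantCoeff (1 + y ^ 2 * q) ≠ 0 := by simp [hcy]
  have hiq := MvPowerSeries.mul_inv_cancel q' hcq'
  have hiD := MvPowerSeries.mul_inv_cancel (1 + y ^ 2 * q) hcD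
  set iq := q'⁻¹ with hiqd
  set iD := (1 + y ^ 2 * q)⁻¹ with hiDd
  have ciq : constantCoeff iq ≠ 0 := by
    rw [hiqd, MvPowerSeries.constantCoeff_inv]; exact inv_ne_zero hcq'
  have ciD : constantCoeff iD ≠ 0 := by
    rw [hiDd, MvPowerSeries.constantCoeff_inv]; exact inv_ne_zero hcD
  set u := (1 + y ^ 2 * q') * q * iq * iD with hu
  have hcu : constantCoeff u ≠ 0 := by
    rw [hu]
    simp only [map_mul]
    exact mul_ne_zero (mul_ne_zero (mul_ne_zero (by simp [hcy]) hcq) ciq) ciD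
  obtain ⟨φ, h0, h1⟩ := exists_tri (F := F) (u := u) (v := y ^ 2 * u + y ^ 2) hcu
    (by simp [hcy]) (by
      intro φ hφ
      rw [← hy] at hφ
      have fq : φ q = q := by
        simp only [hq, map_add, map_mul, map_pow, algHom_C, hφ]
      have fq' : φ q' = q' := by
        simp only [hq', map_add, map_mul, map_pow, algHom_C, hφ]
      have fD : φ (1 + y ^ 2 * q) = 1 + y ^ 2 * q := by
        simp only [map_add, map_mul, map_pow, map_one, hφ, fq]
      have fu : φ u = u := by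
        rw [hu, map_mul, map_mul, map_mul, hiqd, hiDd, algHom_inv φ hcq' fq', algHom_inv φ hcD fD,
          fq, map_add, map_mul, map_pow, map_one, hφ, fq']
      refine ⟨fu, ?_⟩
      rw [map_add, map_mul, map_pow, hφ, fu])
  rw [← hx] at h0
  rw [← hy] at h1
  have hC : ∀ e : F, φ (C e) = C e := fun e => algHom_C (φ : _ →ₐ[F] _) e
  have g0 : pair 2 1 c d 0 = x ^ 2 + y ^ 4 := rfl
  have g1 : pair 2 1 c d 1 = y ^ 5 + x * y ^ 3 + x * y ^ 5 * q' := by
    simp only [pair, Matrix.cons_val_one, Matrix.cons_val_zero]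
    rw [← hx, ← hy, hq', map_one]
    ring
  refine contact_of_MI φ (a := u ^ 2) (b := 0) (c := 0) (d := q * iq)
    (h := 0) (k := 0) ?_ ?_ ⟨0, 0, by simp, by simp, by simp⟩ ⟨0, 0, by simp, by simp, by simp⟩ ?_
  · rw [g0, g1]
    have : φ (pair 2 1 a b 0) = (x * u + (y ^ 2 * u + y ^ 2)) ^ 2 + y ^ 4 := by
      simp only [pair, Matrix.cons_val_zero, map_add, map_pow]
      rw [← hx, ← hy, h0, h1]
    rw [this]
    linear_combination (x * u ^ 2 * y ^ 2 + x * u * y ^ 2 + y ^ 4 * u + y ^ 4) * h2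
  · rw [g0, g1]
    have : φ (pair 2 1 a b 1) = y ^ 5 + (x * u + (y ^ 2 * u + y ^ 2)) * y ^ 3 +
        (x * u + (y ^ 2 * u + y ^ 2)) * y ^ 5 * q := by
      simp only [pair, Matrix.cons_val_one, Matrix.cons_val_zero, map_add, map_mul, map_pow, hC]
      rw [← hx, ← hy, h0, h1, hq, map_one]
      ring
    rw [this, hu]
    linear_combination ((x + y ^ 2) * y ^ 3 * (1 + y ^ 2 * q') * q * iq) * hiD +
      (y ^ 7 * q) * hiq + (y ^ 5 + y ^ 7 * q) * h2
  · simp only [map_pow, map_mul, map_zero, mul_zero, sub_zero]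
    exact mul_ne_zero (pow_ne_zero 2 hcu) (mul_ne_zero hcq ciq)

theorem all_equiv (p : ℕ) [Fact p.Prime] {F : Type*} [Field F] [IsAlgClosed F] [CharP F p]
    (l : F) (hl : l ^ 2 = -1) {a c : F} (ha : a ≠ 0) (hc : c ≠ 0) (b d : F) :
    ContactEquiv (pair p l a b) (pair p l c d) := by
  have hp : p.Prime := Fact.out
  rcases eq_or_ne p 2 with rfl | hp2
  · have : l = 1 := by
      have h2 : (2 : F) = 0 := CharTwo.two_eq_zero
      have : (l - 1) ^ 2 = 0 := by linear_combination hl - l * h2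
      exact sub_eq_zero.1 (pow_eq_zero_iff (two_ne_zero) |>.1 this)
    subst this
    exact char_two ha hc b d
  · obtain ⟨s, hs⟩ := IsAlgClosed.exists_pow_nat_eq (c / a) hp.pos
    have hs0 : s ≠ 0 := by
      rintro rfl
      rw [zero_pow hp.ne_zero] at hs
      exact div_ne_zero hc ha hs.symm
    have h2 : (2 : F) ≠ 0 := by
      have := CharP.cast_eq_zero_iff F p 2
      intro h
      have h' : p ∣ 2 := this.1 (by exact_mod_cast h)
      exact hp2 ((Nat.prime_dvd_prime_iff_eq hp Nat.prime_two).1 h')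
    obtain ⟨k, rfl⟩ : ∃ k, p = k + 2 := ⟨p - 2, by have := hp.two_le; omega⟩
    rw [pair_eq, pair_eq]
    have e1 := scale (k + 2) l a 1 b hs0
    rw [hs, mul_div_cancel₀ _ ha] at e1
    exact e1.trans (stepB h2 k l hl hc _ _ _ _)

/-- **Result.** For every prime `p`, every algebraically closed field `F` of characteristic `p`
and every `l ∈ F` with `l² = -1`: all pairs `f_{a,b}` with `a ≠ 0` are contact equivalent to each
other. Hence `f_{a,b} ∼ f_{c,d}` holds for general `(a,b,c,d)`, every nonempty Zariski-open set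
contains a point with `f_{a,b} ∼ f_{c,d}`, and it is false that `f_{a,b} ≁ f_{c,d}` for general
`(a,b,c,d)`. -/
theorem result (p : ℕ) [Fact p.Prime] {F : Type*} [Field F] [IsAlgClosed F] [CharP F p]
    (l : F) (hl : l ^ 2 = -1) :
    (∀ a b c d : F, a ≠ 0 → c ≠ 0 → ContactEquiv (pair p l a b) (pair p l c d)) ∧
    General (fun v : Fin 4 → F => ContactEquiv (pair p l (v 0) (v 1)) (pair p l (v 2) (v 3))) ∧
    (∀ P : (Fin 4 → F) → Prop, General P →
      ∃ v, P v ∧ ContactEquiv (pair p l (v 0) (v 1)) (pair p l (v 2) (v 3))) ∧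
    ¬ General (fun v : Fin 4 → F => ¬ ContactEquiv (pair p l (v 0) (v 1))
      (pair p l (v 2) (v 3))) := by
  have hinf : Infinite F := IsAlgClosed.instInfinite
  have key : ∀ P : (Fin 4 → F) → Prop, General P →
      ∃ v, P v ∧ ContactEquiv (pair p l (v 0) (v 1)) (pair p l (v 2) (v 3)) := by
    rintro P ⟨S, ⟨v, q, hq, hv⟩, h⟩
    have hq0 : q ≠ 0 := by rintro rfl; exact hv (map_zero _)
    have hne : q * (MvPolynomial.X 0 * MvPolynomial.X 2) ≠ 0 :=
      mul_ne_zero hq0 (mul_ne_zero (MvPolynomial.X_ne_zero _) (MvPolynomial.X_ne_zero _))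
    obtain ⟨w, hw⟩ : ∃ w : Fin 4 → F,
        MvPolynomial.eval w (q * (MvPolynomial.X 0 * MvPolynomial.X 2)) ≠ 0 := by
      by_contra hcon
      push Not at hcon
      exact hne (MvPolynomial.funext fun w => by rw [hcon w, map_zero])
    rw [map_mul, map_mul, MvPolynomial.eval_X, MvPolynomial.eval_X] at hw
    have hw1 := left_ne_zero_of_mul hw
    have hw2 := right_ne_zero_of_mul hw
    exact ⟨w, h w ⟨q, hq, hw1⟩, all_equiv p l hl (left_ne_zero_of_mul hw2)
      (right_ne_zero_of_mul hw2) _ _⟩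
  refine ⟨fun a b c d ha hc => all_equiv p l hl ha hc b d, ?_, key, ?_⟩
  · refine ⟨{MvPolynomial.X 0 * MvPolynomial.X 2}, ⟨fun _ => 1, _, rfl, by simp⟩, ?_⟩
    rintro v ⟨q, rfl, hv⟩
    rw [map_mul, MvPolynomial.eval_X, MvPolynomial.eval_X] at hv
    exact all_equiv p l hl (left_ne_zero_of_mul hv) (right_ne_zero_of_mul hv) _ _
  · intro h
    obtain ⟨v, hv1, hv2⟩ := key _ h
    exact hv1 hv2

end

end Pool.Agent.Results.MP_65bbe4_ag.AllEquivalent
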